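import Mathlib

/-!
# Externally definable Ramsey arrows without finite witnesses

In the infinite perfect matching `M` (the disjoint union of infinitely many edges) every externally
definable colouring of the vertices is constant on some edge, but for every finite part `C` of `M` there
is an externally definable colouring of the vertices that is constant on no edge of `C`.
-/

namespace Pool.Agent.Results.MP_5814e0_lc.NoFiniteWitness

open FirstOrder FirstOrder.Language

section Defs

variable (L : FirstOrder.Language.{0, 0}) (M : Type) [L.Structure M]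

/-- A Fraisse structure: a countably infinite ultrahomogeneous structure in a countable relational
language. -/
structure IsFraisseStructure : Prop where
  relational : L.IsRelational
  countable_language : Countable (Σ n, L.Relations n)
  countable : Countable M
  infinite : Infinite M
  ultrahomogeneous : L.IsUltrahomogeneous M

/-- The colouring `χ` of the embeddings `A → M` with two colours (for a finite structure `A`, enumerated
by `ā`, these are the elements of the set of copies of `ā` in `M`) is externally definable: there are an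
elementary extension `N` of `M`, a tuple `e` in `N` and formulas `φ₀`, `φ₁` with
`χ(f) = i ↔ N ⊨ φ_i(e, f(ā))`. -/
def IsExternallyDefinable {A : Type} [L.Structure A] (χ : (A ↪[L] M) → Fin 2) : Prop :=
  ∃ (N : Type) (_ : L.Structure N) (j : M ↪ₑ[L] N) (l : ℕ) (e : Fin l → N)
    (φ : Fin 2 → L.Formula (Fin l ⊕ A)),
    ∀ (f : A ↪[L] M) (i : Fin 2), χ f = i ↔ (φ i).Realize (Sum.elim e fun a => j (f a))

/-- The copy of `B` in `M` which is the range of `g : B → M` is monochromatic for `χ`. -/
def IsMonochromatic {A B : Type} [L.Structure A] [L.Structure B] (χ : (A ↪[L] M) → Fin 2)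
    (g : B ↪[L] M) : Prop :=
  ∀ f f' : A ↪[L] M, Set.range f ⊆ Set.range g → Set.range f' ⊆ Set.range g → χ f = χ f'

/-- `M →_ext (B)^ā_2`: for every externally definable colouring of the embeddings `A → M` with two
colours there is a monochromatic copy of `B` in `M`. -/
def Arrow (A B : Type) [L.Structure A] [L.Structure B] : Prop :=
  ∀ χ : (A ↪[L] M) → Fin 2, IsExternallyDefinable L M χ → ∃ g : B ↪[L] M, IsMonochromatic L M χ g

/-- `C →_ext (B)^ā_2`: for every copy of `C` in `M` and every externally definable colouring of the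
embeddings `A → M` with two colours there is a monochromatic copy of `B` contained in the copy of
`C`. -/
def FiniteArrow (C A B : Type) [L.Structure C] [L.Structure A] [L.Structure B] : Prop :=
  ∀ (c : C ↪[L] M) (χ : (A ↪[L] M) → Fin 2), IsExternallyDefinable L M χ →
    ∃ g : B ↪[L] M, Set.range g ⊆ Set.range c ∧ IsMonochromatic L M χ g

end Defs

/-! ### The infinite perfect matching -/

/-- the relation symbols: one binary symbol -/
inductive Rl : ℕ → Type
  | E : Rl 2

/-- the language of graphs -/
def LG : FirstOrder.Language.{0, 0} := ⟨fun _ => Empty, Rl⟩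

instance : LG.IsRelational := fun _ => by
  change IsEmpty Empty
  infer_instance

/-- the symbol for adjacency -/
def esym : LG.Relations 2 := Rl.E

/-- the graph on `V` with adjacency `r` -/
@[reducible] def gr {V : Type} (r : V → V → Prop) : LG.Structure V where
  funMap := fun {_} f _ => Empty.elim f
  RelMap := fun {_} R x =>
    match R, x with
    | Rl.E, x => r (x 0) (x 1)

/-- the infinite perfect matching: `(n, false)` and `(n, true)` are adjacent -/
instance instM : LG.Structure (ℕ × Bool) := gr fun x y => y = (x.1, !x.2)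

/-- a vertex -/
instance instA : LG.Structure Unit := gr fun _ _ => False

/-- an edge -/
instance instB : LG.Structure Bool := gr fun x y => y = !x

/-- adjacency in a structure for the language of graphs -/
def Adj {V : Type} [LG.Structure V] (x y : V) : Prop := Structure.RelMap esym ![x, y]

theorem adj_M (x y : ℕ × Bool) : Adj x y ↔ y = (x.1, !x.2) := Iff.rfl

theorem adj_B (x y : Bool) : Adj x y ↔ y = !x := Iff.rfl

theorem adj_A (x y : Unit) : ¬ Adj x y := id

/-- embeddings of graphs -/
def mkEmb {V W : Type} [LG.Structure V] [LG.Structure W] (f : V → W) (hf : Function.Injective f)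
    (h : ∀ x y, Adj (f x) (f y) ↔ Adj x y) : V ↪[LG] W where
  toFun := f
  inj' := hf
  map_fun' := fun {_} fn _ => Empty.elim fn
  map_rel' := fun {_} R x => by
    cases R
    have h1 := h (x 0) (x 1)
    have e1 : (f ∘ x) = ![f (x 0), f (x 1)] := by
      funext i
      fin_cases i <;> rfl
    have e2 : x = ![x 0, x 1] := by
      funext i
      fin_cases i <;> rfl
    unfold Adj at h1
    rw [e1]
    conv_rhs => rw [e2]
    exact h1

/-- isomorphisms of graphs -/
def mkEquiv {V W : Type} [LG.Structure V] [LG.Structure W] (f : V ≃ W)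
    (h : ∀ x y, Adj (f x) (f y) ↔ Adj x y) : V ≃[LG] W where
  toEquiv := f
  map_fun' := fun {_} fn _ => Empty.elim fn
  map_rel' := fun {_} R x => (mkEmb f f.injective h).map_rel' R x

theorem adj_map {V W : Type} [LG.Structure V] [LG.Structure W] (f : V ↪[LG] W) (x y : V) :
    Adj (f x) (f y) ↔ Adj x y := by
  have h := f.map_rel' esym ![x, y]
  have e1 : (f.toFun ∘ ![x, y]) = ![f x, f y] := by
    funext i
    fin_cases i <;> rfl
  rw [e1] at h
  exact h

theorem ultrahomogeneous : LG.IsUltrahomogeneous (ℕ × Bool) := by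
  classical
  intro S hS f
  have hfin : Finite S := hS.finite
  let I : Set ℕ := Prod.fst '' (S : Set (ℕ × Bool))
  have hI : Finite I := by
    have h1 : (S : Set (ℕ × Bool)).Finite := Set.toFinite _
    exact (h1.image _).to_subtype
  have hb : ∀ i : I, ∃ b : Bool, ((i : ℕ), b) ∈ S := by
    rintro ⟨i, ⟨x, hx, rfl⟩⟩
    exact ⟨x.2, hx⟩
  choose b hb using hb
  -- an embedding maps partners to partners
  have hpart : ∀ x y : S, (x : ℕ × Bool).1 = (y : ℕ × Bool).1 →
      (f y).1 = (f x).1 ∧ ((f y).2 = ((f x).2 ^^ ((x : ℕ × Bool).2 ^^ (y : ℕ × Bool).2))) := by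
    intro x y hxy
    by_cases h2 : (x : ℕ × Bool).2 = (y : ℕ × Bool).2
    · have h3 : x = y := Subtype.ext (Prod.ext hxy h2)
      subst h3
      simp
    · have h3 : Adj x y := by
        rw [← adj_map S.subtype]
        change (y : ℕ × Bool) = ((x : ℕ × Bool).1, !(x : ℕ × Bool).2)
        refine Prod.ext hxy.symm ?_
        change (y : ℕ × Bool).2 = !(x : ℕ × Bool).2
        revert h2
        cases (x : ℕ × Bool).2 <;> cases (y : ℕ × Bool).2 <;> simp
      rw [← adj_map f, adj_M] at h3
      rw [h3]
      refine ⟨rfl, ?_⟩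
      change (!(f x).2) = _
      revert h2
      cases (x : ℕ × Bool).2 <;> cases (y : ℕ × Bool).2 <;> simp
  have hinj : Function.Injective fun i : I => (f ⟨_, hb i⟩).1 := by
    intro i i' hii
    by_cases h2 : (f ⟨_, hb i⟩).2 = (f ⟨_, hb i'⟩).2
    · have h3 := congrArg (fun z : S => (z : ℕ × Bool).1) (f.injective (Prod.ext hii h2))
      exact Subtype.ext h3
    · have h3 : Adj (f ⟨_, hb i⟩) (f ⟨_, hb i'⟩) := by
        rw [adj_M]
        refine Prod.ext hii.symm ?_
        change (f ⟨_, hb i'⟩).2 = !(f ⟨_, hb i⟩).2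
        revert h2
        cases (f ⟨_, hb i⟩).2 <;> cases (f ⟨_, hb i'⟩).2 <;> simp
      rw [adj_map f, ← adj_map S.subtype, adj_M] at h3
      have h4 : (i' : ℕ) = i := congrArg Prod.fst h3
      exact Subtype.ext h4.symm
  obtain ⟨σ, hσ⟩ := Equiv.Perm.exists_extending_pair (fun i : I => (i : ℕ)) _
    Subtype.val_injective hinj
  let t : ℕ → Bool := fun i => if hi : i ∈ I then (b ⟨i, hi⟩ ^^ (f ⟨_, hb ⟨i, hi⟩⟩).2) else false
  let g : (ℕ × Bool) ≃ (ℕ × Bool) :=
    { toFun := fun x => (σ x.1, x.2 ^^ t x.1)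
      invFun := fun x => (σ.symm x.1, x.2 ^^ t (σ.symm x.1))
      left_inv := fun x => by simp
      right_inv := fun x => by simp }
  refine ⟨mkEquiv g ?_, ?_⟩
  · intro x y
    rw [adj_M, adj_M]
    change (σ y.1, y.2 ^^ t y.1) = (σ x.1, !(x.2 ^^ t x.1)) ↔ y = (x.1, !x.2)
    rw [Prod.ext_iff, Prod.ext_iff]
    simp only [EmbeddingLike.apply_eq_iff_eq]
    constructor
    · rintro ⟨h1, h2⟩
      rw [h1] at h2
      refine ⟨h1, ?_⟩
      revert h2
      cases x.2 <;> cases y.2 <;> cases t x.1 <;> simp
    · rintro ⟨h1, h2⟩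
      refine ⟨h1, ?_⟩
      rw [h1, h2]
      cases x.2 <;> cases t x.1 <;> simp
  · ext x
    · change (f x).1 = σ (x : ℕ × Bool).1
      have hx : (x : ℕ × Bool).1 ∈ I := ⟨x, x.2, rfl⟩
      rw [hσ ⟨_, hx⟩]
      exact (hpart ⟨_, hb ⟨_, hx⟩⟩ x rfl).1
    · change (f x).2 = ((x : ℕ × Bool).2 ^^ t (x : ℕ × Bool).1)
      have hx : (x : ℕ × Bool).1 ∈ I := ⟨x, x.2, rfl⟩
      have h1 := (hpart ⟨_, hb ⟨_, hx⟩⟩ x rfl).2
      have h2 : t (x : ℕ × Bool).1 = (b ⟨_, hx⟩ ^^ (f ⟨_, hb ⟨_, hx⟩⟩).2) := dif_pos hx
      rw [h2, h1]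
      have hbool : ∀ p q r : Bool, (p ^^ (q ^^ r)) = (r ^^ (q ^^ p)) := by decide
      exact hbool _ _ _

theorem isFraisse : IsFraisseStructure LG (ℕ × Bool) where
  relational := inferInstance
  countable_language := by
    have : ∀ n, Countable (LG.Relations n) := by
      intro n
      refine Function.Injective.countable (f := fun _ : LG.Relations n => ()) ?_
      intro x y _
      cases x
      cases y
      rfl
    infer_instance
  countable := inferInstance
  infinite := inferInstance
  ultrahomogeneous := ultrahomogeneous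

/-- the vertex `v` as an embedding -/
def vtx (v : ℕ × Bool) : Unit ↪[LG] (ℕ × Bool) :=
  mkEmb (fun _ => v) (fun _ _ _ => rfl) fun x y => by
    rw [adj_M]
    refine iff_of_false (fun h => ?_) (adj_A x y)
    have := congrArg Prod.snd h
    simp at this

/-- the `n`-th edge as an embedding -/
def edge (n : ℕ) : Bool ↪[LG] (ℕ × Bool) :=
  mkEmb (fun b => (n, b)) (fun _ _ h => congrArg Prod.snd h) fun x y => by
    rw [adj_M, adj_B, Prod.ext_iff]
    simp

/-- the formula `∀ y, E(x₀, y) ↔ y = x₁` -/
def nbF : LG.Formula (Fin 2) :=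
  BoundedFormula.all ((Relations.boundedFormula₂ esym
    (Term.var (Sum.inl (0 : Fin 2))) (Term.var (Sum.inr (0 : Fin 1)))).iff
    (Term.bdEqual (Term.var (Sum.inr (0 : Fin 1))) (Term.var (Sum.inl (1 : Fin 2)))))

theorem realize_nbF {V : Type} [LG.Structure V] (v : Fin 2 → V) :
    nbF.Realize v ↔ ∀ y, Adj (v 0) y ↔ y = v 1 := by
  unfold nbF Formula.Realize
  rw [BoundedFormula.realize_all]
  refine forall_congr' fun y => ?_
  rw [BoundedFormula.realize_iff, BoundedFormula.realize_rel₂, BoundedFormula.realize_bdEqual]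
  rfl

/-- the formula `∀ y, E(y, x₀) ↔ y = x₁` -/
def nbF' : LG.Formula (Fin 2) :=
  BoundedFormula.all ((Relations.boundedFormula₂ esym
    (Term.var (Sum.inr (0 : Fin 1))) (Term.var (Sum.inl (0 : Fin 2)))).iff
    (Term.bdEqual (Term.var (Sum.inr (0 : Fin 1))) (Term.var (Sum.inl (1 : Fin 2)))))

theorem realize_nbF' {V : Type} [LG.Structure V] (v : Fin 2 → V) :
    nbF'.Realize v ↔ ∀ y, Adj y (v 0) ↔ y = v 1 := by
  unfold nbF' Formula.Realize
  rw [BoundedFormula.realize_all]
  refine forall_congr' fun y => ?_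
  rw [BoundedFormula.realize_iff, BoundedFormula.realize_rel₂, BoundedFormula.realize_bdEqual]
  rfl

/-- in an elementary extension of `M` the two ends of an edge of `M` can be exchanged -/
theorem exists_swap {N : Type} [LG.Structure N] (j : (ℕ × Bool) ↪ₑ[LG] N) (n : ℕ) :
    ∃ s : N ≃[LG] N, s (j (n, true)) = j (n, false) ∧ s (j (n, false)) = j (n, true) ∧
      ∀ x, x ≠ j (n, true) → x ≠ j (n, false) → s x = x := by
  classical
  have h1 : ∀ (b : Bool) (y : N), Adj (j (n, b)) y ↔ y = j (n, !b) := by
    intro b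
    have h2 : nbF.Realize (![(n, b), (n, !b)] : Fin 2 → ℕ × Bool) := by
      rw [realize_nbF]
      exact fun y => Iff.rfl
    rw [← j.map_formula, realize_nbF] at h2
    exact h2
  have h1' : ∀ (b : Bool) (y : N), Adj y (j (n, b)) ↔ y = j (n, !b) := by
    intro b
    have h2 : nbF'.Realize (![(n, b), (n, !b)] : Fin 2 → ℕ × Bool) := by
      rw [realize_nbF']
      rintro ⟨y1, y2⟩
      change (n, b) = (y1, !y2) ↔ (y1, y2) = (n, !b)
      rw [Prod.ext_iff, Prod.ext_iff]
      change (n = y1 ∧ b = !y2) ↔ (y1 = n ∧ y2 = !b)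
      constructor
      · rintro ⟨rfl, rfl⟩
        simp
      · rintro ⟨rfl, rfl⟩
        simp
    rw [← j.map_formula, realize_nbF'] at h2
    exact h2
  have hne : j (n, true) ≠ j (n, false) := fun h => by
    have := congrArg Prod.snd (j.injective h)
    simp at this
  refine ⟨mkEquiv (Equiv.swap (j (n, true)) (j (n, false))) ?_, Equiv.swap_apply_left _ _,
    Equiv.swap_apply_right _ _, fun x hx hx' => Equiv.swap_apply_of_ne_of_ne hx hx'⟩
  have h1t := h1 true
  have h1f := h1 false
  have h1t' := h1' true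
  have h1f' := h1' false
  simp only [Bool.not_true, Bool.not_false] at h1t h1f h1t' h1f'
  intro x y
  by_cases hx1 : x = j (n, true)
  · subst hx1
    rw [Equiv.swap_apply_left, h1f, h1t, Equiv.swap_apply_eq_iff, Equiv.swap_apply_left]
  by_cases hx2 : x = j (n, false)
  · subst hx2
    rw [Equiv.swap_apply_right, h1f, h1t, Equiv.swap_apply_eq_iff, Equiv.swap_apply_right]
  rw [Equiv.swap_apply_of_ne_of_ne hx1 hx2]
  by_cases hy1 : y = j (n, true)
  · subst hy1
    rw [Equiv.swap_apply_left, h1t', h1f']
    exact iff_of_false hx1 hx2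
  by_cases hy2 : y = j (n, false)
  · subst hy2
    rw [Equiv.swap_apply_right, h1t', h1f']
    exact iff_of_false hx2 hx1
  rw [Equiv.swap_apply_of_ne_of_ne hy1 hy2]

theorem arrow : Arrow LG (ℕ × Bool) Unit Bool := by
  classical
  rintro χ ⟨N, _, j, l, e, φ, hφ⟩
  have hfin : (Prod.fst '' (j ⁻¹' Set.range e)).Finite :=
    ((Set.finite_range e).preimage j.injective.injOn).image _
  obtain ⟨n, hn⟩ := hfin.exists_notMem
  have hne : ∀ (b : Bool) (i : Fin l), e i ≠ j (n, b) := by
    intro b i h
    exact hn ⟨(n, b), ⟨i, h⟩, rfl⟩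
  obtain ⟨s, hs1, hs2, hs3⟩ := exists_swap j n
  have hse : ∀ i, s (e i) = e i := fun i => hs3 _ (hne true i) (hne false i)
  -- the two ends have the same colour
  have key : ∀ f f' : Unit ↪[LG] (ℕ × Bool), f () = (n, true) → f' () = (n, false) →
      χ f = χ f' := by
    intro f f' h1 h2
    rw [hφ f (χ f')]
    have h3 := (hφ f' (χ f')).1 rfl
    rw [← StrongHomClass.realize_formula s] at h3
    have e1 : (⇑s ∘ Sum.elim e fun a => j (f' a)) = Sum.elim e fun a => j (f a) := by
      funext z
      rcases z with z | z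
      · exact hse z
      · change s (j (f' ())) = j (f ())
        rw [h1, h2, hs2]
    rw [e1] at h3
    exact h3
  have hext : ∀ f f' : Unit ↪[LG] (ℕ × Bool), f () = f' () → f = f' := by
    intro f f' h
    ext x
    · exact congrArg Prod.fst h
    · exact congrArg Prod.snd h
  refine ⟨edge n, fun f f' hf hf' => ?_⟩
  obtain ⟨b, hb⟩ := hf ⟨(), rfl⟩
  obtain ⟨b', hb'⟩ := hf' ⟨(), rfl⟩
  change (n, b) = f () at hb
  change (n, b') = f' () at hb'
  cases b <;> cases b'
  · rw [hext f f' (hb.symm.trans hb')]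
  · exact (key f' f hb'.symm hb.symm).symm
  · exact key f f' hb.symm hb'.symm
  · rw [hext f f' (hb.symm.trans hb')]

theorem not_finiteArrow (C : Type) [LG.Structure C] [Finite C]
    (hC : Nonempty (C ↪[LG] (ℕ × Bool))) : ¬ FiniteArrow LG (ℕ × Bool) C Unit Bool := by
  classical
  obtain ⟨c⟩ := hC
  intro h
  let T : Set (ℕ × Bool) := {x | x ∈ Set.range c ∧ x.2 = true}
  have hT : T.Finite := (Set.finite_range c).subset fun x hx => hx.1
  have _ : Fintype T := hT.fintype
  let e : Fin (Fintype.card T) → ℕ × Bool := fun i => ((Fintype.equivFin T).symm i : ℕ × Bool)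
  have he : ∀ x, x ∈ T ↔ ∃ i, x = e i := by
    intro x
    constructor
    · intro hx
      exact ⟨Fintype.equivFin T ⟨x, hx⟩, by simp [e]⟩
    · rintro ⟨i, rfl⟩
      exact ((Fintype.equivFin T).symm i).2
  let ψ : LG.Formula (Fin (Fintype.card T) ⊕ Unit) :=
    Formula.iSup fun i : Fin (Fintype.card T) =>
      Term.equal (Term.var (Sum.inr ())) (Term.var (Sum.inl i))
  let χ : (Unit ↪[LG] (ℕ × Bool)) → Fin 2 := fun f => if f () ∈ T then 1 else 0
  have hψ : ∀ f : Unit ↪[LG] (ℕ × Bool), ψ.Realize (Sum.elim e fun a => f a) ↔ f () ∈ T := by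
    intro f
    rw [Formula.realize_iSup, he]
    refine exists_congr fun i => ?_
    rw [Formula.realize_equal]
    rfl
  have hχ : IsExternallyDefinable LG (ℕ × Bool) χ := by
    refine ⟨ℕ × Bool, inferInstance, ElementaryEmbedding.refl LG _, Fintype.card T, e,
      ![ψ.not, ψ], fun f i => ?_⟩
    fin_cases i
    · change χ f = 0 ↔ ψ.not.Realize (Sum.elim e fun a => f a)
      rw [Formula.realize_not, hψ]
      by_cases hf : f () ∈ T
      · simp [χ, hf]
      · simp [χ, hf]
    · change χ f = 1 ↔ ψ.Realize (Sum.elim e fun a => f a)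
      rw [hψ]
      by_cases hf : f () ∈ T
      · simp [χ, hf]
      · simp [χ, hf]
  obtain ⟨g, hg1, hg2⟩ := h c χ hχ
  have h1 : Adj (g true) (g false) := (adj_map g true false).2 rfl
  rw [adj_M] at h1
  have h2 := hg2 (vtx (g true)) (vtx (g false)) (by rintro _ ⟨x, rfl⟩; exact ⟨true, rfl⟩)
    (by rintro _ ⟨x, rfl⟩; exact ⟨false, rfl⟩)
  have h3 : ∀ b : Bool, χ (vtx (g b)) = if (g b).2 = true then 1 else 0 := by
    intro b
    have h4 : g b ∈ T ↔ (g b).2 = true := ⟨fun h => h.2, fun h => ⟨hg1 ⟨b, rfl⟩, h⟩⟩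
    change (if g b ∈ T then (1 : Fin 2) else 0) = _
    by_cases h5 : (g b).2 = true
    · rw [if_pos h5, if_pos (h4.2 h5)]
    · rw [if_neg h5, if_neg fun h => h5 (h4.1 h)]
  rw [h3, h3, h1] at h2
  revert h2
  change (if (g true).2 = true then (1 : Fin 2) else 0) =
    (if (!(g true).2) = true then (1 : Fin 2) else 0) → False
  cases (g true).2 <;> simp

/-- **There are a Fraisse structure `M` and finite `A`, `B` in its age with `M →_ext (B)^ā_2` such that no
`C` in the age satisfies `C →_ext (B)^ā_2`.**  (`M` is the infinite perfect matching, `A` a vertex, `B`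
an edge.) -/
theorem result : ∃ (L : FirstOrder.Language.{0, 0}) (M : Type) (_ : L.Structure M),
    IsFraisseStructure L M ∧
      ∃ (A B : Type) (_ : L.Structure A) (_ : L.Structure B), Finite A ∧ Finite B ∧
        Nonempty (A ↪[L] M) ∧ Nonempty (B ↪[L] M) ∧ Arrow L M A B ∧
          ∀ (C : Type) [L.Structure C] [Finite C], Nonempty (C ↪[L] M) →
            ¬ FiniteArrow L M C A B :=
  ⟨LG, ℕ × Bool, inferInstance, isFraisse, Unit, Bool, inferInstance, inferInstance,
    inferInstance, inferInstance, ⟨vtx (0, true)⟩, ⟨edge 0⟩, arrow,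
    fun C _ _ hC => not_finiteArrow C hC⟩

end Pool.Agent.Results.MP_5814e0_lc.NoFiniteWitness
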